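import Pool.Agent.helper36.MP.SpecN

/-!
# mp: module MA (sum of pulled back densities)
-/

set_option autoImplicit false

open Complex Metric Set Filter Topology MeasureTheory

noncomputable section

namespace MPS

theorem MA_det (A : ℂ →L[ℂ] ℂ) : (A.restrictScalars ℝ).det = ‖A 1‖ ^ 2 := by
  have h1 : (A.restrictScalars ℝ).det = LinearMap.det ((A : ℂ →ₗ[ℂ] ℂ).restrictScalars ℝ) := rfl
  rw [h1, LinearMap.det_restrictScalars, Algebra.norm_complex_apply, LinearMap.det_ring,
    Complex.sq_norm]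
  rfl

/-- real derivative of a holomorphic function -/
theorem MA_fderiv {G : ℂ → ℂ} {Ω : Set ℂ} (hΩ : IsOpen Ω) (hG : DifferentiableOn ℂ G Ω) :
    ∀ x ∈ Ω, HasFDerivWithinAt G ((fderiv ℂ G x).restrictScalars ℝ) Ω x := by
  intro x hx
  exact ((hG.differentiableAt (hΩ.mem_nhds hx)).hasFDerivAt.restrictScalars ℝ).hasFDerivWithinAt

/-- the image of an injective holomorphic map is measurable -/
theorem MA_meas {G : ℂ → ℂ} {Ω : Set ℂ} (hΩ : IsOpen Ω) (hG : DifferentiableOn ℂ G Ω)
    (hinj : InjOn G Ω) : MeasurableSet (G '' Ω) :=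
  MeasureTheory.measurable_image_of_fderivWithin hΩ.measurableSet (MA_fderiv hΩ hG) hinj

/-- change of variables for an injective holomorphic map -/
theorem MA_cov {G : ℂ → ℂ} {Ω : Set ℂ} (hΩ : IsOpen Ω) (hG : DifferentiableOn ℂ G Ω)
    (hinj : InjOn G Ω) (u : ℂ → ℝ) :
    ∫⁻ w in Ω, ENNReal.ofReal (u (G w) * ‖deriv G w‖ ^ 2) =
      ∫⁻ z in G '' Ω, ENNReal.ofReal (u z) := by
  rw [lintegral_image_eq_lintegral_abs_det_fderiv_mul volume hΩ.measurableSet
    (MA_fderiv hΩ hG) hinj]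
  refine setLIntegral_congr_fun hΩ.measurableSet fun w _ => ?_
  rw [MA_det, fderiv_apply_one_eq_deriv, abs_of_nonneg (by positivity),
    ENNReal.ofReal_mul' (by positivity), mul_comm]

/-- multiplicity bound -/
theorem MA_mult {Q M : ℕ} {S : ℕ → Set ℂ} {D : Set ℂ} (hS : ∀ q < Q, MeasurableSet (S q))
    (hD : MeasurableSet D) (hSD : ∀ q < Q, S q ⊆ D)
    (hM : ∀ z : ℂ, ∀ F : Finset ℕ, (∀ q ∈ F, q < Q ∧ z ∈ S q) → F.card ≤ M)
    {F : ℂ → ENNReal} (hF : Measurable F) :
    ∑ q ∈ Finset.range Q, ∫⁻ z in S q, F z ≤ M * ∫⁻ z in D, F z := by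
  classical
  have h1 : ∑ q ∈ Finset.range Q, ∫⁻ z in S q, F z =
      ∫⁻ z, ∑ q ∈ Finset.range Q, (S q).indicator F z := by
    rw [lintegral_finsetSum']
    · refine Finset.sum_congr rfl fun q hq => ?_
      rw [lintegral_indicator (hS q (Finset.mem_range.mp hq))]
    · intro q hq
      exact (hF.indicator (hS q (Finset.mem_range.mp hq))).aemeasurable
  rw [h1, ← lintegral_indicator hD, ← lintegral_const_mul _ (hF.indicator hD)]
  refine lintegral_mono fun z => ?_
  by_cases hz : z ∈ D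
  · rw [indicator_of_mem hz]
    have h2 : ∑ q ∈ Finset.range Q, (S q).indicator F z =
        ∑ q ∈ (Finset.range Q).filter (fun q => z ∈ S q), F z := by
      rw [Finset.sum_filter]
      refine Finset.sum_congr rfl fun q _ => ?_
      simp only [indicator_apply]
    rw [h2, Finset.sum_const, nsmul_eq_mul]
    gcongr
    exact hM z _ (fun q hq => by
      rw [Finset.mem_filter, Finset.mem_range] at hq
      exact hq)
  · have h2 : ∑ q ∈ Finset.range Q, (S q).indicator F z = 0 := by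
      refine Finset.sum_eq_zero fun q hq => ?_
      rw [indicator_of_notMem]
      exact fun h => hz (hSD q (Finset.mem_range.mp hq) h)
    rw [h2]
    exact zero_le

/-- MA. -/
theorem MA (hMI : MI_stmt) (hMD : MD_stmt) : MA_stmt := by
  intro n k _ c b g R hn hc hc3 hR hrho Q M Ω G hG hmult
  obtain ⟨-, hmer, hmDf, hint⟩ := hMI.1 n k c b g
  obtain ⟨-, hMD2⟩ := hMD n k c b g R hn hc hc3 hR hrho
  have hS : ∀ q < Q, MeasurableSet (G q '' Ω q) := fun q hq =>
    MA_meas (hG q hq).1 (hG q hq).2.1 (hG q hq).2.2.1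
  have hSD : ∀ q < Q, G q '' Ω q ⊆ ball 0 R := fun q hq => (hG q hq).2.2.2.image_subset
  have he : ∫⁻ z in ball (0 : ℂ) R, ENNReal.ofReal ‖er n c b g z‖ =
      ENNReal.ofReal (∫ z in ball (0 : ℂ) R, ‖er n c b g z‖) :=
    (ofReal_integral_eq_lintegral_ofReal (hint 0 R).norm
      (Eventually.of_forall fun z => norm_nonneg _)).symm
  have he0 : 0 ≤ ∫ z in ball (0 : ℂ) R, ‖er n c b g z‖ := integral_nonneg fun z => norm_nonneg _
  have hL0 : 0 < Real.log ‖rho n b‖ := Real.log_pos hrho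
  constructor
  · have h1 : ∀ q ∈ Finset.range Q, ∫⁻ w in Ω q, ENNReal.ofReal (dens n c b g (G q) w) =
        ∫⁻ z in G q '' Ω q, ENNReal.ofReal (Df n c b g z + 2 * ‖er n c b g z‖) := by
      intro q hq
      have hq' := hG q (Finset.mem_range.mp hq)
      exact MA_cov hq'.1 hq'.2.1 hq'.2.2.1 (fun z => Df n c b g z + 2 * ‖er n c b g z‖)
    rw [Finset.sum_congr rfl h1]
    have hmeas : Measurable fun z => ENNReal.ofReal (Df n c b g z + 2 * ‖er n c b g z‖) :=
      (hmDf.add (hmer.norm.const_mul 2)).ennreal_ofReal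
    refine (MA_mult hS measurableSet_ball hSD hmult hmeas).trans ?_
    gcongr
    calc ∫⁻ z in ball (0 : ℂ) R, ENNReal.ofReal (Df n c b g z + 2 * ‖er n c b g z‖)
        ≤ ∫⁻ z in ball (0 : ℂ) R, (ENNReal.ofReal (Df n c b g z) +
            2 * ENNReal.ofReal ‖er n c b g z‖) := by
          refine lintegral_mono fun z => ?_
          refine ENNReal.ofReal_add_le.trans ?_
          gcongr
          rw [ENNReal.ofReal_mul (by norm_num), ENNReal.ofReal_ofNat]
      _ = (∫⁻ z in ball (0 : ℂ) R, ENNReal.ofReal (Df n c b g z)) +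
            2 * ∫⁻ z in ball (0 : ℂ) R, ENNReal.ofReal ‖er n c b g z‖ := by
          rw [lintegral_add_left hmDf.ennreal_ofReal,
            lintegral_const_mul _ hmer.norm.ennreal_ofReal]
      _ ≤ ENNReal.ofReal (2 * Real.pi * Real.log ‖rho n b‖ +
            ∫ z in ball (0 : ℂ) R, ‖er n c b g z‖) +
            2 * ENNReal.ofReal (∫ z in ball (0 : ℂ) R, ‖er n c b g z‖) := by
          rw [he]
          gcongr
      _ = ENNReal.ofReal (2 * Real.pi * Real.log ‖rho n b‖ +
            3 * ∫ z in ball (0 : ℂ) R, ‖er n c b g z‖) := by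
          have e2 : (2 : ENNReal) = ENNReal.ofReal 2 := (ENNReal.ofReal_ofNat 2).symm
          rw [e2, ← ENNReal.ofReal_mul (by norm_num), ← ENNReal.ofReal_add (by positivity)
            (by positivity)]
          congr 1
          ring
  · have h1 : ∀ q ∈ Finset.range Q,
        ∫⁻ w in Ω q, ENNReal.ofReal (‖er n c b g (G q w)‖ * ‖deriv (G q) w‖ ^ 2) =
        ∫⁻ z in G q '' Ω q, ENNReal.ofReal ‖er n c b g z‖ := by
      intro q hq
      have hq' := hG q (Finset.mem_range.mp hq)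
      exact MA_cov hq'.1 hq'.2.1 hq'.2.2.1 (fun z => ‖er n c b g z‖)
    rw [Finset.sum_congr rfl h1]
    refine (MA_mult hS measurableSet_ball hSD hmult hmer.norm.ennreal_ofReal).trans ?_
    rw [he]

end MPS
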