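import Pool.Agent.helper74.MP.MD1

/-!
# mp: module MD (total cancellation)
-/

set_option autoImplicit false

open Complex Metric Set Filter Topology MeasureTheory

noncomputable section

namespace MPS

section
variable {k : ℕ} [NeZero k]

/-- the integral of `|B|` over a small annulus around a pole, from above and from below. -/
theorem MD_annB (hMI : MI_stmt) {b g : ZMod k → ℂ} {C s t : ℝ} (hBm : Measurable (BB b g))
    (hC : 0 ≤ C) (hs : 0 < s) (hst : s ≤ t) (i : ZMod k)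
    (P1 : ∀ z : ℂ, z ≠ b i → ‖z - b i‖ < t →
      |‖BB b g z‖ - 1 / ‖z - b i‖ ^ 2| ≤ C / ‖z - b i‖) :
    (∫⁻ z in ball (b i) t \ ball (b i) s, ENNReal.ofReal ‖BB b g z‖ ≤
      ENNReal.ofReal (2 * Real.pi * Real.log (t / s)) + ENNReal.ofReal (2 * Real.pi * C * t)) ∧
    (ENNReal.ofReal (2 * Real.pi * Real.log (t / s)) ≤
      (∫⁻ z in ball (b i) t \ ball (b i) s, ENNReal.ofReal ‖BB b g z‖) +
        ENNReal.ofReal (2 * Real.pi * C * t)) := by
  have hA := MD_ann_meas (b i) s t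
  have ht : 0 < t := hs.trans_le hst
  have hmem : ∀ z ∈ ball (b i) t \ ball (b i) s, s ≤ ‖z - b i‖ ∧ ‖z - b i‖ < t := by
    intro z hz
    rw [mem_diff, mem_ball, mem_ball, dist_eq_norm, not_lt] at hz
    exact ⟨hz.2, hz.1⟩
  have hP : ∀ z ∈ ball (b i) t \ ball (b i) s,
      |‖BB b g z‖ - 1 / ‖z - b i‖ ^ 2| ≤ C * (1 / ‖z - b i‖) := by
    intro z hz
    obtain ⟨h1, h2⟩ := hmem z hz
    have hne : z ≠ b i := by
      intro h
      rw [h, sub_self, norm_zero] at h1
      linarith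
    have := P1 z hne h2
    rwa [div_eq_mul_one_div C] at this
  have hm1 : Measurable fun z : ℂ => ENNReal.ofReal (1 / ‖z - b i‖ ^ 2) := by fun_prop
  have hm2 : Measurable fun z : ℂ => ENNReal.ofReal ‖BB b g z‖ := hBm.norm.ennreal_ofReal
  have hm3 : Measurable fun z : ℂ => ENNReal.ofReal (C * (1 / ‖z - b i‖)) := by fun_prop
  obtain ⟨hi1, hi2⟩ := hMI.2 (b i) t ht.le
  have hCt : ∫⁻ z in ball (b i) t \ ball (b i) s, ENNReal.ofReal (C * (1 / ‖z - b i‖)) ≤
      ENNReal.ofReal (2 * Real.pi * C * t) := by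
    calc ∫⁻ z in ball (b i) t \ ball (b i) s, ENNReal.ofReal (C * (1 / ‖z - b i‖))
        ≤ ∫⁻ z in ball (b i) t, ENNReal.ofReal (C * (1 / ‖z - b i‖)) :=
          lintegral_mono_set diff_subset
      _ = ENNReal.ofReal (∫ z in ball (b i) t, C * (1 / ‖z - b i‖)) :=
          (ofReal_integral_eq_lintegral_ofReal (hi1.const_mul C)
            (Eventually.of_forall fun z => by positivity)).symm
      _ = ENNReal.ofReal (2 * Real.pi * C * t) := by
          rw [integral_const_mul, hi2]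
          congr 1
          ring
  constructor
  · calc ∫⁻ z in ball (b i) t \ ball (b i) s, ENNReal.ofReal ‖BB b g z‖
        ≤ ∫⁻ z in ball (b i) t \ ball (b i) s, (ENNReal.ofReal (1 / ‖z - b i‖ ^ 2) +
            ENNReal.ofReal (C * (1 / ‖z - b i‖))) := by
          refine setLIntegral_mono' hA fun z hz => ?_
          rw [← ENNReal.ofReal_add (by positivity) (by positivity)]
          apply ENNReal.ofReal_le_ofReal
          have := (abs_le.mp (hP z hz)).2
          linarith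
      _ = (∫⁻ z in ball (b i) t \ ball (b i) s, ENNReal.ofReal (1 / ‖z - b i‖ ^ 2)) +
            ∫⁻ z in ball (b i) t \ ball (b i) s, ENNReal.ofReal (C * (1 / ‖z - b i‖)) :=
          lintegral_add_left hm1 _
      _ ≤ _ := by
          rw [MD_ann (b i) hs hst]
          gcongr
  · calc ENNReal.ofReal (2 * Real.pi * Real.log (t / s))
        = ∫⁻ z in ball (b i) t \ ball (b i) s, ENNReal.ofReal (1 / ‖z - b i‖ ^ 2) :=
          (MD_ann (b i) hs hst).symm
      _ ≤ ∫⁻ z in ball (b i) t \ ball (b i) s, (ENNReal.ofReal ‖BB b g z‖ +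
            ENNReal.ofReal (C * (1 / ‖z - b i‖))) := by
          refine setLIntegral_mono' hA fun z hz => ?_
          rw [← ENNReal.ofReal_add (by positivity) (by positivity)]
          apply ENNReal.ofReal_le_ofReal
          have := (abs_le.mp (hP z hz)).1
          linarith
      _ = (∫⁻ z in ball (b i) t \ ball (b i) s, ENNReal.ofReal ‖BB b g z‖) +
            ∫⁻ z in ball (b i) t \ ball (b i) s, ENNReal.ofReal (C * (1 / ‖z - b i‖)) :=
          lintegral_add_left hm2 _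
      _ ≤ _ := by gcongr

/-- the pointwise identity and inequality -/
theorem MD_point (hTB : TB_stmt) {n : ℕ} {c : ℂ} {b g : ZMod k → ℂ} (hn : 2 ≤ n)
    (hc : IsCyc n c b) {z : ℂ} (hz : z ≠ c) (hzb : ∀ i, z ≠ b i) :
    0 ≤ Df n c b g z ∧
    ENNReal.ofReal (Df n c b g z) + ENNReal.ofReal ‖BB b g z‖ ≤
      (∑ j ∈ Finset.range n, ENNReal.ofReal ‖BB b g (om n ^ j * rt n (z - c))‖ /
        ENNReal.ofReal (‖fd n (om n ^ j * rt n (z - c))‖ ^ 2)) + ENNReal.ofReal ‖er n c b g z‖ := by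
  have hn0 : n ≠ 0 := by omega
  set y := rt n (z - c) with hy
  have hyn : y ^ n = z - c := by
    rw [hy, rt, one_div]
    exact Complex.cpow_nat_inv_pow _ hn0
  have hy0 : y ≠ 0 := by
    intro h
    rw [h, zero_pow hn0] at hyn
    exact hz (sub_eq_zero.mp hyn.symm)
  have hync : y ^ n + c = z := by rw [hyn]; ring
  have hT := hTB n k c b g hn hc y hy0 (by rw [hync]; exact hzb)
  rw [hync] at hT
  have h1 : ‖BB b g z - er n c b g z‖ ≤
      ∑ j ∈ Finset.range n, ‖BB b g (om n ^ j * y)‖ / ‖fd n (om n ^ j * y)‖ ^ 2 := by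
    rw [← hT]
    refine (norm_sum_le _ _).trans (le_of_eq ?_)
    refine Finset.sum_congr rfl fun j _ => ?_
    rw [norm_div, norm_pow]
  have hD : 0 ≤ Df n c b g z := by
    unfold Df
    rw [← hy]
    linarith
  refine ⟨hD, ?_⟩
  have h2 : ∀ j ∈ Finset.range n, ENNReal.ofReal ‖BB b g (om n ^ j * y)‖ /
      ENNReal.ofReal (‖fd n (om n ^ j * y)‖ ^ 2) =
      ENNReal.ofReal (‖BB b g (om n ^ j * y)‖ / ‖fd n (om n ^ j * y)‖ ^ 2) := by
    intro j _
    rw [ENNReal.ofReal_div_of_pos]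
    have : fd n (om n ^ j * y) ≠ 0 := by
      unfold fd om
      refine mul_ne_zero (by exact_mod_cast hn0) (pow_ne_zero _ (mul_ne_zero ?_ hy0))
      exact pow_ne_zero _ (Complex.exp_ne_zero _)
    have := norm_pos_iff.mpr this
    positivity
  rw [Finset.sum_congr rfl h2, ← ENNReal.ofReal_sum_of_nonneg (fun j _ => by positivity),
    ← ENNReal.ofReal_add hD (norm_nonneg _),
    ← ENNReal.ofReal_add (Finset.sum_nonneg fun j _ => by positivity) (norm_nonneg _)]
  apply ENNReal.ofReal_le_ofReal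
  have h3 : ‖BB b g z‖ ≤ ‖BB b g z - er n c b g z‖ + ‖er n c b g z‖ := by
    calc ‖BB b g z‖ = ‖(BB b g z - er n c b g z) + er n c b g z‖ := by congr 1; ring
      _ ≤ _ := norm_add_le _ _
  unfold Df
  rw [← hy]
  linarith

/-- the inequality outside of small discs. -/
theorem MD_core (hMI : MI_stmt) (hMCV : MCV_stmt) (hTB : TB_stmt) (hTBD : TBD_stmt)
    {n : ℕ} {c : ℂ} {b g : ZMod k → ℂ} {R : ℝ} (hn : 2 ≤ n) (hc : IsCyc n c b) (hc3 : ‖c‖ ≤ 3)
    (hR : 4 ≤ R) (hrho : 1 < ‖rho n b‖) {η C r t : ℝ} (hη : 0 < η) (hC : 0 ≤ C) (hr : 0 < r)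
    (hrt : r ≤ t) (hst : ∀ i, r / ((1 + η) * ‖fd n (b i)‖) ≤ t)
    (P1 : ∀ i : ZMod k, ∀ z : ℂ, z ≠ b i → ‖z - b i‖ < t →
      |‖BB b g z‖ - 1 / ‖z - b i‖ ^ 2| ≤ C / ‖z - b i‖)
    (P2 : ∀ i j : ZMod k, i ≠ j → Disjoint (ball (b i) t) (ball (b j) t))
    (P2' : ∀ i : ZMod k, ball (b i) t ⊆ ball 0 R)
    (P3 : ∀ i : ZMod k, ∀ y : ℂ, ‖y - b i‖ < t →
      ‖y ^ n + c - b (i + 1)‖ ≤ (1 + η) * ‖fd n (b i)‖ * ‖y - b i‖) :
    ∫⁻ z in ball (0 : ℂ) R \ ⋃ i, ball (b i) r, ENNReal.ofReal (Df n c b g z) ≤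
      ENNReal.ofReal (2 * Real.pi * (Real.log ‖rho n b‖ + k * Real.log (1 + η)) +
        4 * Real.pi * k * C * t + ∫ z in ball (0 : ℂ) R, ‖er n c b g z‖) := by
  classical
  obtain ⟨hBm, hem, hDm, hint⟩ := hMI.1 n k c b g
  have ht : 0 < t := hr.trans_le hrt
  set s : ZMod k → ℝ := fun i => r / ((1 + η) * ‖fd n (b i)‖) with hs
  have hfpos : ∀ i, 0 < ‖fd n (b i)‖ := fun i => norm_pos_iff.mpr (MD_fd0 hn hc i)
  have hs0 : ∀ i, 0 < s i := fun i => by
    have := hfpos i
    simp only [hs]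
    positivity
  set K := ball (0 : ℂ) R \ ⋃ i, ball (b i) r with hK
  set L := ball (0 : ℂ) R \ ⋃ i, ball (b i) (s i) with hL
  set W := ball (0 : ℂ) R \ ⋃ i, ball (b i) t with hW
  set F : ℂ → ENNReal := fun z => ENNReal.ofReal ‖BB b g z‖ with hF
  have hFm : Measurable F := hBm.norm.ennreal_ofReal
  have hKm : MeasurableSet K :=
    measurableSet_ball.diff (MeasurableSet.iUnion fun i => measurableSet_ball)
  have hLm : MeasurableSet L :=
    measurableSet_ball.diff (MeasurableSet.iUnion fun i => measurableSet_ball)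
  set E := ENNReal.ofReal (∫ z in ball (0 : ℂ) R, ‖er n c b g z‖) with hE
  have hEeq : ∫⁻ z in ball (0 : ℂ) R, ENNReal.ofReal ‖er n c b g z‖ = E :=
    (ofReal_integral_eq_lintegral_ofReal (hint 0 R).norm
      (Eventually.of_forall fun z => norm_nonneg _)).symm
  -- preimage
  have hpre : {y : ℂ | y ^ n + c ∈ K} ⊆ L := by
    intro y hy
    rw [mem_setOf_eq, hK, mem_diff, mem_ball, dist_zero_right] at hy
    obtain ⟨hy1, hy2⟩ := hy
    rw [hL, mem_diff, mem_ball, dist_zero_right]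
    refine ⟨(hTBD n c hn hc3).2.1 R y hR hy1, ?_⟩
    intro h
    rw [mem_iUnion] at h
    obtain ⟨i, hi⟩ := h
    rw [mem_ball, dist_eq_norm] at hi
    apply hy2
    rw [mem_iUnion]
    refine ⟨i + 1, ?_⟩
    rw [mem_ball, dist_eq_norm]
    have h1 := P3 i y (hi.trans_le (hst i))
    have h2 : (1 + η) * ‖fd n (b i)‖ * ‖y - b i‖ < (1 + η) * ‖fd n (b i)‖ * s i := by
      have := hfpos i
      gcongr
    have h3 : (1 + η) * ‖fd n (b i)‖ * s i = r := by
      have := (hfpos i).ne'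
      simp only [hs]
      field_simp
    linarith
  -- first inequality
  have hX : (∫⁻ z in K, ENNReal.ofReal (Df n c b g z)) + ∫⁻ z in K, F z ≤
      (∫⁻ z in L, F z) + E := by
    rw [← lintegral_add_right _ hFm]
    have h1 : ∫⁻ z in K, (ENNReal.ofReal (Df n c b g z) + F z) ≤
        ∫⁻ z in K, ((∑ j ∈ Finset.range n, F (om n ^ j * rt n (z - c)) /
          ENNReal.ofReal (‖fd n (om n ^ j * rt n (z - c))‖ ^ 2)) +
            ENNReal.ofReal ‖er n c b g z‖) := by
      refine lintegral_mono_ae ?_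
      rw [ae_restrict_iff' hKm]
      have hne : ∀ᵐ z : ℂ, z ≠ c := by
        rw [ae_iff]
        simp
      filter_upwards [hne] with z hz hzK
      refine (MD_point hTB hn hc hz fun i h => ?_).2
      rw [hK, mem_diff, mem_iUnion] at hzK
      exact hzK.2 ⟨i, by rw [h]; exact mem_ball_self hr⟩
    refine h1.trans ?_
    rw [lintegral_add_right _ hem.norm.ennreal_ofReal, hMCV n c (by omega) F K hFm hKm]
    gcongr
    · rw [← hEeq]
      exact lintegral_mono_set diff_subset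
  -- second inequality
  have hLW : ∫⁻ z in L, F z ≤ (∫⁻ z in W, F z) +
      ∑ i, (ENNReal.ofReal (2 * Real.pi * Real.log (t / s i)) +
        ENNReal.ofReal (2 * Real.pi * C * t)) := by
    have hsub : L ⊆ W ∪ ⋃ i, (ball (b i) t \ ball (b i) (s i)) := by
      intro z hz
      by_cases h : z ∈ ⋃ i, ball (b i) t
      · right
        rw [mem_iUnion] at h ⊢
        obtain ⟨i, hi⟩ := h
        exact ⟨i, hi, fun h' => hz.2 (mem_iUnion.mpr ⟨i, h'⟩)⟩
      · left
        exact ⟨hz.1, h⟩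
    calc ∫⁻ z in L, F z ≤ ∫⁻ z in W ∪ ⋃ i, (ball (b i) t \ ball (b i) (s i)), F z :=
          lintegral_mono_set hsub
      _ ≤ (∫⁻ z in W, F z) + ∫⁻ z in ⋃ i, (ball (b i) t \ ball (b i) (s i)), F z :=
          lintegral_union_le _ _ _
      _ ≤ (∫⁻ z in W, F z) + ∑' i, ∫⁻ z in ball (b i) t \ ball (b i) (s i), F z := by
          gcongr
          exact lintegral_iUnion_le _ _
      _ ≤ _ := by
          rw [tsum_fintype]
          gcongr with i _
          exact (MD_annB hMI hBm hC (hs0 i) (hst i) i (P1 i)).1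
  -- third inequality
  have hKW : (∫⁻ z in W, F z) + ∑ _i : ZMod k, ENNReal.ofReal (2 * Real.pi * Real.log (t / r)) ≤
      (∫⁻ z in K, F z) + ∑ _i : ZMod k, ENNReal.ofReal (2 * Real.pi * C * t) := by
    have hdis : Pairwise (Function.onFun Disjoint fun i => ball (b i) t \ ball (b i) r) := by
      intro i j hij
      exact (P2 i j hij).mono diff_subset diff_subset
    have hsub : W ∪ ⋃ i, (ball (b i) t \ ball (b i) r) ⊆ K := by
      intro z hz
      rcases hz with hz | hz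
      · refine ⟨hz.1, fun h => hz.2 ?_⟩
        rw [mem_iUnion] at h ⊢
        obtain ⟨i, hi⟩ := h
        exact ⟨i, ball_subset_ball hrt hi⟩
      · rw [mem_iUnion] at hz
        obtain ⟨i, hi1, hi2⟩ := hz
        refine ⟨P2' i hi1, fun h => ?_⟩
        rw [mem_iUnion] at h
        obtain ⟨j, hj⟩ := h
        by_cases hij : i = j
        · rw [hij] at hi2
          exact hi2 hj
        · exact (disjoint_left.mp (P2 i j hij) hi1) (ball_subset_ball hrt hj)
    have hdW : Disjoint W (⋃ i, (ball (b i) t \ ball (b i) r)) := by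
      rw [disjoint_left]
      intro z hz h
      apply hz.2
      rw [mem_iUnion] at h ⊢
      obtain ⟨i, hi⟩ := h
      exact ⟨i, hi.1⟩
    have h1 : (∫⁻ z in W, F z) + ∑ i, ∫⁻ z in ball (b i) t \ ball (b i) r, F z ≤
        ∫⁻ z in K, F z := by
      have h2 : (∫⁻ z in W, F z) + ∑ i, ∫⁻ z in ball (b i) t \ ball (b i) r, F z =
          ∫⁻ z in W ∪ ⋃ i, (ball (b i) t \ ball (b i) r), F z := by
        rw [lintegral_union (MeasurableSet.iUnion fun i => MD_ann_meas _ _ _) hdW,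
          lintegral_iUnion (fun i => MD_ann_meas _ _ _) hdis, tsum_fintype]
      rw [h2]
      exact lintegral_mono_set hsub
    calc (∫⁻ z in W, F z) + ∑ _i : ZMod k, ENNReal.ofReal (2 * Real.pi * Real.log (t / r))
        ≤ (∫⁻ z in W, F z) + ∑ i : ZMod k, ((∫⁻ z in ball (b i) t \ ball (b i) r, F z) +
            ENNReal.ofReal (2 * Real.pi * C * t)) := by
          gcongr with i _
          exact (MD_annB hMI hBm hC hr hrt i (P1 i)).2
      _ = ((∫⁻ z in W, F z) + ∑ i : ZMod k, ∫⁻ z in ball (b i) t \ ball (b i) r, F z) +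
            ∑ _i : ZMod k, ENNReal.ofReal (2 * Real.pi * C * t) := by
          rw [Finset.sum_add_distrib, add_assoc]
      _ ≤ _ := by gcongr
  -- finiteness
  have hKfin : ∫⁻ z in K, F z ≠ ⊤ := by
    have hb : ∀ z ∈ K, F z ≤ ENNReal.ofReal (∑ i, (1 / r ^ 2 + ‖g i‖ / r)) := by
      intro z hz
      apply ENNReal.ofReal_le_ofReal
      unfold BB
      refine (norm_sum_le _ _).trans (Finset.sum_le_sum fun i _ => ?_)
      have hri : r ≤ ‖z - b i‖ := by
        by_contra h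
        apply hz.2
        rw [mem_iUnion]
        exact ⟨i, by rw [mem_ball, dist_eq_norm]; linarith⟩
      refine (norm_add_le _ _).trans ?_
      rw [norm_div, norm_div, norm_pow, norm_one]
      gcongr
    refine ne_top_of_le_ne_top ?_ (setLIntegral_mono' hKm hb)
    rw [setLIntegral_const]
    refine ENNReal.mul_ne_top ENNReal.ofReal_ne_top ?_
    exact ((measure_mono diff_subset).trans_lt measure_ball_lt_top).ne
  -- logarithms
  have hlog : ∀ i, Real.log (t / s i) =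
      Real.log (t / r) + (Real.log (1 + η) + Real.log ‖fd n (b i)‖) := by
    intro i
    have h1 : t / s i = (t / r) * ((1 + η) * ‖fd n (b i)‖) := by
      have := (hfpos i).ne'
      simp only [hs]
      field_simp
    have h2 := (hfpos i).ne'
    rw [h1, Real.log_mul (by positivity) (by positivity), Real.log_mul (by positivity) h2]
  have hlogs0 : ∀ i, 0 ≤ Real.log (t / s i) := fun i =>
    Real.log_nonneg (by rw [le_div_iff₀ (hs0 i), one_mul]; exact hst i)
  have hlogr0 : 0 ≤ Real.log (t / r) :=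
    Real.log_nonneg (by rw [le_div_iff₀ hr, one_mul]; exact hrt)
  have hrholog : Real.log ‖rho n b‖ = ∑ i, Real.log ‖fd n (b i)‖ := by
    unfold rho
    rw [norm_prod, Real.log_prod fun i _ => (hfpos i).ne']
  have hcard : (Finset.univ : Finset (ZMod k)).card = k := by
    rw [Finset.card_univ, ZMod.card]
  have hpi := Real.pi_pos
  have hlogη : 0 < Real.log (1 + η) := Real.log_pos (by linarith)
  have hLam : 0 < Real.log ‖rho n b‖ := Real.log_pos hrho
  have he0 : 0 ≤ ∫ z in ball (0 : ℂ) R, ‖er n c b g z‖ := integral_nonneg fun z => norm_nonneg _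
  set a0 : ℝ := k * (2 * Real.pi * Real.log (t / r)) with ha0
  set d : ℝ := k * (2 * Real.pi * C * t) with hd
  have hk0 : (0 : ℝ) ≤ k := Nat.cast_nonneg k
  have hd0 : 0 ≤ d := by positivity
  have ha00 : 0 ≤ a0 := by positivity
  have hS1 : ∑ _i : ZMod k, ENNReal.ofReal (2 * Real.pi * Real.log (t / r)) =
      ENNReal.ofReal a0 := by
    rw [← ENNReal.ofReal_sum_of_nonneg (fun i _ => by positivity), Finset.sum_const, hcard,
      nsmul_eq_mul]
  have hS2 : ∑ _i : ZMod k, ENNReal.ofReal (2 * Real.pi * C * t) = ENNReal.ofReal d := by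
    rw [← ENNReal.ofReal_sum_of_nonneg (fun i _ => by positivity), Finset.sum_const, hcard,
      nsmul_eq_mul]
  have hS3 : ∑ i, ENNReal.ofReal (2 * Real.pi * Real.log (t / s i)) =
      ENNReal.ofReal (a0 + 2 * Real.pi * (Real.log ‖rho n b‖ + k * Real.log (1 + η))) := by
    rw [← ENNReal.ofReal_sum_of_nonneg (fun i _ => by have := hlogs0 i; positivity)]
    congr 1
    simp_rw [hlog, mul_add, Finset.sum_add_distrib]
    rw [Finset.sum_const, Finset.sum_const, hcard, ← Finset.mul_sum, ← hrholog, nsmul_eq_mul,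
      nsmul_eq_mul, ha0]
    ring
  rw [Finset.sum_add_distrib, hS3, hS2] at hLW
  rw [hS1, hS2] at hKW
  set X := ∫⁻ z in K, ENNReal.ofReal (Df n c b g z) with hXdef
  set IK := ∫⁻ z in K, F z with hIK
  set IL := ∫⁻ z in L, F z with hIL
  set IW := ∫⁻ z in W, F z with hIW
  set v : ℝ := 2 * Real.pi * (Real.log ‖rho n b‖ + k * Real.log (1 + η)) with hv
  have hv0 : 0 ≤ v := by positivity
  have hfinal : IK + (X + ENNReal.ofReal a0) ≤
      IK + (ENNReal.ofReal a0 + ENNReal.ofReal (v + 4 * Real.pi * k * C * t +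
        ∫ z in ball (0 : ℂ) R, ‖er n c b g z‖)) := by
    calc IK + (X + ENNReal.ofReal a0) = (X + IK) + ENNReal.ofReal a0 := by ring
      _ ≤ (IL + E) + ENNReal.ofReal a0 := by gcongr
      _ ≤ ((IW + (ENNReal.ofReal (a0 + v) + ENNReal.ofReal d)) + E) + ENNReal.ofReal a0 := by
          gcongr
      _ = (IW + ENNReal.ofReal a0) + (ENNReal.ofReal (a0 + v) + ENNReal.ofReal d + E) := by ring
      _ ≤ (IK + ENNReal.ofReal d) + (ENNReal.ofReal (a0 + v) + ENNReal.ofReal d + E) := by gcongr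
      _ = IK + (ENNReal.ofReal a0 + (ENNReal.ofReal v + (ENNReal.ofReal d + ENNReal.ofReal d) + E)) := by
          rw [ENNReal.ofReal_add ha00 hv0]
          ring
      _ = _ := by
          rw [hE, ← ENNReal.ofReal_add hd0 hd0, ← ENNReal.ofReal_add hv0 (by positivity),
            ← ENNReal.ofReal_add (by positivity) he0]
          congr 3
          rw [hd]
          ring
  have h4 := ENNReal.le_of_add_le_add_left hKfin hfinal
  rw [add_comm X] at h4
  exact ENNReal.le_of_add_le_add_left ENNReal.ofReal_ne_top h4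

/-- MD. -/
theorem MD_aux (hMI : MI_stmt) (hMCV : MCV_stmt) (hTB : TB_stmt) (hTBD : TBD_stmt)
    {n : ℕ} {c : ℂ} {b g : ZMod k → ℂ} {R : ℝ} (hn : 2 ≤ n) (hc : IsCyc n c b) (hc3 : ‖c‖ ≤ 3)
    (hR : 4 ≤ R) (hrho : 1 < ‖rho n b‖) {δ : ℝ} (hδ : 0 < δ) :
    ∀ᶠ r in 𝓝[>] (0 : ℝ),
    ∫⁻ z in ball (0 : ℂ) R \ ⋃ i, ball (b i) r, ENNReal.ofReal (Df n c b g z) ≤
      ENNReal.ofReal (2 * Real.pi * Real.log ‖rho n b‖ +
        (∫ z in ball (0 : ℂ) R, ‖er n c b g z‖) + δ) := by
  obtain ⟨C, hC, hloc⟩ := MD_loc b g hc.inj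
  have hpi := Real.pi_pos
  have hk0 : (0 : ℝ) ≤ k := Nat.cast_nonneg k
  -- choice of η
  obtain ⟨η, hη, hη2⟩ : ∃ η : ℝ, 0 < η ∧ 2 * Real.pi * (k * Real.log (1 + η)) ≤ δ / 2 := by
    refine ⟨δ / (4 * Real.pi * (k + 1)), by positivity, ?_⟩
    have h1 : Real.log (1 + δ / (4 * Real.pi * (k + 1))) ≤ δ / (4 * Real.pi * (k + 1)) := by
      have := Real.log_le_sub_one_of_pos (show 0 < 1 + δ / (4 * Real.pi * (k + 1)) by positivity)
      linarith
    have h0 : 0 ≤ Real.log (1 + δ / (4 * Real.pi * (k + 1))) :=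
      Real.log_nonneg (by linarith [show 0 < δ / (4 * Real.pi * (k + 1)) by positivity])
    calc 2 * Real.pi * (k * Real.log (1 + δ / (4 * Real.pi * (k + 1))))
        ≤ 2 * Real.pi * ((k + 1) * (δ / (4 * Real.pi * (k + 1)))) := by
          gcongr
          linarith
      _ = δ / 2 := by field_simp; ring
  set A : ℝ := 1 + ∑ i, 1 / ‖fd n (b i)‖ with hA
  have hfpos : ∀ i, 0 < ‖fd n (b i)‖ := fun i => norm_pos_iff.mpr (MD_fd0 hn hc i)
  have hsum0 : 0 ≤ ∑ i, 1 / ‖fd n (b i)‖ := Finset.sum_nonneg fun i _ => by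
    have := hfpos i; positivity
  have hA1 : 1 ≤ A := by linarith
  have hA0 : 0 < A := by linarith
  have htend : Tendsto (fun r : ℝ => A * r) (𝓝[>] 0) (𝓝[>] 0) := by
    refine tendsto_nhdsWithin_iff.mpr ⟨?_, ?_⟩
    · have : Tendsto (fun r : ℝ => A * r) (𝓝 0) (𝓝 (A * 0)) := tendsto_const_nhds.mul tendsto_id
      rw [mul_zero] at this
      exact this.mono_left nhdsWithin_le_nhds
    · filter_upwards [self_mem_nhdsWithin] with r hr
      exact mul_pos hA0 hr
  have hbR : ∀ i, ‖b i‖ < R := fun i => ((hTBD n c hn hc3).2.2 k b hc i).trans_le hR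
  have hsmall : ∀ᶠ r in 𝓝[>] (0 : ℝ), 4 * Real.pi * k * C * (A * r) < δ / 2 := by
    have : Tendsto (fun r : ℝ => 4 * Real.pi * k * C * (A * r)) (𝓝[>] 0) (𝓝 0) := by
      have h1 : Tendsto (fun r : ℝ => 4 * Real.pi * k * C * (A * r)) (𝓝 0)
          (𝓝 (4 * Real.pi * k * C * (A * 0))) :=
        tendsto_const_nhds.mul (tendsto_const_nhds.mul tendsto_id)
      rw [mul_zero, mul_zero] at h1
      exact h1.mono_left nhdsWithin_le_nhds
    exact this.eventually (gt_mem_nhds (by positivity))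
  filter_upwards [self_mem_nhdsWithin, htend.eventually hloc, htend.eventually (MD_disj b hc.inj),
    htend.eventually (MD_in b hbR), htend.eventually (MD_der hn hc hη), hsmall]
    with r hr h1 h2 h3 h4 h5
  have hr0 : 0 < r := hr
  refine (MD_core hMI hMCV hTB hTBD hn hc hc3 hR hrho hη hC hr0 (t := A * r) ?_ ?_ h1 h2 h3
    h4).trans ?_
  · nlinarith
  · intro i
    have hf := hfpos i
    have hle : 1 / ‖fd n (b i)‖ ≤ A := by
      have := Finset.single_le_sum (f := fun i => 1 / ‖fd n (b i)‖)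
        (fun i _ => by have := hfpos i; positivity) (Finset.mem_univ i)
      linarith
    calc r / ((1 + η) * ‖fd n (b i)‖) ≤ r / (1 * ‖fd n (b i)‖) := by
          gcongr
          linarith
      _ = 1 / ‖fd n (b i)‖ * r := by rw [one_mul]; ring
      _ ≤ A * r := by gcongr
  · apply ENNReal.ofReal_le_ofReal
    have e1 : 2 * Real.pi * (Real.log ‖rho n b‖ + k * Real.log (1 + η)) =
      2 * Real.pi * Real.log ‖rho n b‖ + 2 * Real.pi * (k * Real.log (1 + η)) := by ring
    rw [e1]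
    linarith

/-- exhaustion of the punctured disc -/
theorem MD_lim (b : ZMod k → ℂ) (R : ℝ) (F : ℂ → ENNReal) {V : ENNReal}
    (h : ∀ᶠ r in 𝓝[>] (0 : ℝ), ∫⁻ z in ball (0 : ℂ) R \ ⋃ i, ball (b i) r, F z ≤ V) :
    ∫⁻ z in ball (0 : ℂ) R, F z ≤ V := by
  have hanti : ∀ r r' : ℝ, r ≤ r' → ball (0 : ℂ) R \ (⋃ i, ball (b i) r') ⊆
      ball (0 : ℂ) R \ ⋃ i, ball (b i) r := by
    intro r r' hrr
    exact diff_subset_diff_right (iUnion_mono fun i => ball_subset_ball hrr)
  have hall : ∀ m : ℕ, ∫⁻ z in ball (0 : ℂ) R \ ⋃ i, ball (b i) (1 / ((m : ℝ) + 1)), F z ≤ V := by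
    intro m
    have hpos : (0 : ℝ) < 1 / ((m : ℝ) + 1) := by positivity
    have h2 : ∀ᶠ r in 𝓝[>] (0 : ℝ), r < 1 / ((m : ℝ) + 1) :=
      nhdsWithin_le_nhds (gt_mem_nhds hpos)
    obtain ⟨r, hr1, hr2⟩ := (h.and h2).exists
    exact (lintegral_mono_set (hanti r _ hr2.le)).trans hr1
  have hU : (ball (0 : ℂ) R \ range b) =
      ⋃ m : ℕ, (ball (0 : ℂ) R \ ⋃ i, ball (b i) (1 / ((m : ℝ) + 1))) := by
    ext z
    constructor
    · rintro ⟨hz1, hz2⟩
      have hev : ∀ᶠ m : ℕ in atTop, ∀ i : ZMod k, 1 / ((m : ℝ) + 1) < ‖z - b i‖ := by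
        rw [eventually_all]
        intro i
        have hpos : 0 < ‖z - b i‖ := by
          rw [norm_pos_iff, sub_ne_zero]
          intro h
          exact hz2 ⟨i, h.symm⟩
        exact (tendsto_one_div_add_atTop_nhds_zero_nat (𝕜 := ℝ)).eventually (gt_mem_nhds hpos)
      obtain ⟨m, hm⟩ := hev.exists
      rw [mem_iUnion]
      refine ⟨m, hz1, fun h => ?_⟩
      rw [mem_iUnion] at h
      obtain ⟨i, hi⟩ := h
      rw [mem_ball, dist_eq_norm] at hi
      exact absurd hi (not_lt.mpr (hm i).le)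
    · intro h
      rw [mem_iUnion] at h
      obtain ⟨m, hz1, hz2⟩ := h
      refine ⟨hz1, ?_⟩
      rintro ⟨i, rfl⟩
      exact hz2 (mem_iUnion.mpr ⟨i, mem_ball_self (by positivity)⟩)
  have hdir : Directed (· ⊆ ·)
      (fun m : ℕ => ball (0 : ℂ) R \ ⋃ i, ball (b i) (1 / ((m : ℝ) + 1))) := by
    apply Monotone.directed_le
    intro m m' hmm
    refine hanti _ _ ?_
    gcongr
  have h1 : ∫⁻ z in ball (0 : ℂ) R, F z = ∫⁻ z in ball (0 : ℂ) R \ range b, F z := by
    refine setLIntegral_congr ?_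
    have hnull : volume (range b) = 0 := (finite_range b).measure_zero _
    exact (sdiff_null_ae_eq_self hnull).symm
  rw [h1, hU, setLIntegral_iUnion_of_directed F hdir]
  exact iSup_le hall

end

/-- MD: total cancellation. -/
theorem MD (hMI : MI_stmt) (hMCV : MCV_stmt) (hTB : TB_stmt) (hTBD : TBD_stmt) : MD_stmt := by
  intro n k _ c b g R hn hc hc3 hR hrho
  refine ⟨fun z hz hzb => (MD_point hTB hn hc hz hzb).1, ?_⟩
  refine ge_of_tendsto (x := 𝓝[>] (0 : ℝ)) (f := fun δ : ℝ =>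
    ENNReal.ofReal (2 * Real.pi * Real.log ‖rho n b‖ +
      (∫ z in ball (0 : ℂ) R, ‖er n c b g z‖) + δ)) ?_ ?_
  · have h1 : Tendsto (fun δ : ℝ => 2 * Real.pi * Real.log ‖rho n b‖ +
        (∫ z in ball (0 : ℂ) R, ‖er n c b g z‖) + δ) (𝓝 0) (𝓝 (2 * Real.pi * Real.log ‖rho n b‖ +
        (∫ z in ball (0 : ℂ) R, ‖er n c b g z‖) + 0)) := tendsto_const_nhds.add tendsto_id
    rw [add_zero] at h1
    exact (ENNReal.continuous_ofReal.tendsto _).comp (h1.mono_left nhdsWithin_le_nhds)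
  · filter_upwards [self_mem_nhdsWithin] with δ hδ
    exact MD_lim b R _ (MD_aux hMI hMCV hTB hTBD hn hc hc3 hR hrho hδ)

end MPS
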