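import Pool.Agent.helper36.MP.SpecN

/-!
# mp: module MD, part 1: annuli, local estimates
-/

set_option autoImplicit false

open Complex Metric Set Filter Topology MeasureTheory

noncomputable section

namespace MPS

/-- polar coordinates -/
theorem MD_polar (f : ℝ → ℝ) :
    ∫ z : ℂ, f ‖z‖ = 2 * Real.pi * ∫ y in Ioi (0 : ℝ), y * f y := by
  have h1 := MeasureTheory.integral_fun_norm_addHaar (volume : Measure ℂ) f
  rw [h1]
  have h8 : (volume : Measure ℂ).real (Metric.ball 0 1) = Real.pi := by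
    rw [Measure.real, Complex.volume_ball]
    simp
  rw [h8]
  simp only [Complex.finrank_real_complex, smul_eq_mul, nsmul_eq_mul, Nat.add_one_sub_one, pow_one]
  push_cast
  ring

theorem MD_ann_meas (a : ℂ) (s t : ℝ) : MeasurableSet (ball a t \ ball a s) :=
  measurableSet_ball.diff measurableSet_ball

/-- the integral of `1/|z-a|^2` over an annulus -/
theorem MD_ann (a : ℂ) {s t : ℝ} (hs : 0 < s) (hst : s ≤ t) :
    ∫⁻ z in ball a t \ ball a s, ENNReal.ofReal (1 / ‖z - a‖ ^ 2) =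
      ENNReal.ofReal (2 * Real.pi * Real.log (t / s)) := by
  have hA := MD_ann_meas a s t
  have hmeas : Measurable fun z : ℂ => 1 / ‖z - a‖ ^ 2 := by fun_prop
  have hmem : ∀ z ∈ ball a t \ ball a s, s ≤ ‖z - a‖ ∧ ‖z - a‖ < t := by
    intro z hz
    rw [mem_diff, mem_ball, mem_ball, dist_eq_norm, not_lt] at hz
    exact ⟨hz.2, hz.1⟩
  have hint : IntegrableOn (fun z : ℂ => 1 / ‖z - a‖ ^ 2) (ball a t \ ball a s) := by
    refine Measure.integrableOn_of_bounded (M := 1 / s ^ 2) ?_ hmeas.aestronglyMeasurable ?_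
    · exact ((measure_mono diff_subset).trans_lt measure_ball_lt_top).ne
    · rw [ae_restrict_iff' hA]
      refine Eventually.of_forall fun z hz => ?_
      obtain ⟨h1, h2⟩ := hmem z hz
      rw [Real.norm_of_nonneg (by positivity)]
      gcongr
  rw [← ofReal_integral_eq_lintegral_ofReal hint (Eventually.of_forall fun z => by positivity)]
  congr 1
  set F : ℝ → ℝ := (Ico s t).indicator (fun y => 1 / y ^ 2) with hF
  have h1 : ∫ z in ball a t \ ball a s, 1 / ‖z - a‖ ^ 2 = ∫ z : ℂ, F ‖z - a‖ := by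
    rw [← integral_indicator hA]
    congr 1
    funext z
    by_cases hz : z ∈ ball a t \ ball a s
    · rw [indicator_of_mem hz, hF, indicator_of_mem (show ‖z - a‖ ∈ Ico s t from hmem z hz)]
    · rw [indicator_of_notMem hz, hF, indicator_of_notMem]
      intro h
      apply hz
      rw [mem_diff, mem_ball, mem_ball, dist_eq_norm, not_lt]
      exact ⟨h.2, h.1⟩
  rw [h1, integral_sub_right_eq_self (fun z : ℂ => F ‖z‖) a, MD_polar]
  congr 1
  have h2 : ∀ y : ℝ, y * F y = (Ico s t).indicator (fun y => 1 / y) y := by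
    intro y
    by_cases hy : y ∈ Ico s t
    · rw [hF, indicator_of_mem hy, indicator_of_mem hy]
      have : y ≠ 0 := (lt_of_lt_of_le hs hy.1).ne'
      field_simp
    · rw [hF, indicator_of_notMem hy, indicator_of_notMem hy, mul_zero]
  simp_rw [h2]
  rw [setIntegral_indicator measurableSet_Ico]
  have h3 : Ioi (0 : ℝ) ∩ Ico s t = Ico s t :=
    inter_eq_self_of_subset_right fun y hy => lt_of_lt_of_le hs hy.1
  rw [h3, integral_Ico_eq_integral_Ioo, ← integral_Ioc_eq_integral_Ioo,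
    ← intervalIntegral.integral_of_le hst, integral_one_div_of_pos hs (lt_of_lt_of_le hs hst)]

section
variable {k : ℕ} [NeZero k]

/-- behaviour of `|B|` near the poles -/
theorem MD_loc (b g : ZMod k → ℂ) (hb : Function.Injective b) :
    ∃ C : ℝ, 0 ≤ C ∧ ∀ᶠ t in 𝓝[>] (0 : ℝ), ∀ i : ZMod k, ∀ z : ℂ, z ≠ b i → ‖z - b i‖ < t →
      |‖BB b g z‖ - 1 / ‖z - b i‖ ^ 2| ≤ C / ‖z - b i‖ := by
  classical
  set H : ZMod k → ℂ → ℂ := fun i z =>
    ∑ j ∈ Finset.univ.erase i, (1 / (z - b j) ^ 2 + g j / (z - b j)) with hH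
  set M : ZMod k → ℝ := fun i => ‖H i (b i)‖ + 1 with hM
  have hM0 : ∀ i, 0 ≤ M i := fun i => by positivity
  refine ⟨∑ i, (‖g i‖ + M i), Finset.sum_nonneg fun i _ => add_nonneg (norm_nonneg _) (hM0 i), ?_⟩
  rw [eventually_all]
  intro i
  have hcont : ContinuousAt (H i) (b i) := by
    refine tendsto_finset_sum _ fun j hj => ?_
    have hne : b i - b j ≠ 0 := by
      rw [sub_ne_zero]
      intro h
      exact (Finset.ne_of_mem_erase hj) (hb h).symm
    have h1 : ContinuousAt (fun z : ℂ => z - b j) (b i) := by fun_prop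
    exact (continuousAt_const.div (h1.pow 2) (pow_ne_zero 2 hne)).add
      (continuousAt_const.div h1 hne)
  have hlt : ∀ᶠ z in 𝓝 (b i), ‖H i z‖ < M i := by
    have := hcont.norm
    exact this.eventually (gt_mem_nhds (by simp [hM]))
  obtain ⟨δ, hδ, hδ2⟩ := Metric.eventually_nhds_iff_ball.mp hlt
  have hev : ∀ᶠ t in 𝓝[>] (0 : ℝ), t < min δ 1 :=
    nhdsWithin_le_nhds (gt_mem_nhds (lt_min hδ one_pos))
  filter_upwards [hev] with t ht z hz hzt
  have hpos : 0 < ‖z - b i‖ := norm_pos_iff.mpr (sub_ne_zero.mpr hz)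
  have h1 : ‖H i z‖ ≤ M i := by
    refine (hδ2 z ?_).le
    rw [mem_ball, dist_eq_norm]
    exact hzt.trans (ht.trans_le (min_le_left _ _))
  have hle1 : ‖z - b i‖ ≤ 1 := (hzt.trans (ht.trans_le (min_le_right _ _))).le
  have hB : BB b g z = 1 / (z - b i) ^ 2 + (g i / (z - b i) + H i z) := by
    rw [hH, BB, ← Finset.add_sum_erase Finset.univ _ (Finset.mem_univ i)]
    ring
  have h2 : 1 / ‖z - b i‖ ^ 2 = ‖1 / (z - b i) ^ 2‖ := by
    rw [norm_div, norm_pow, norm_one]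
  rw [hB, h2]
  have h3 := abs_norm_sub_norm_le (1 / (z - b i) ^ 2 + (g i / (z - b i) + H i z))
    (1 / (z - b i) ^ 2)
  refine h3.trans ?_
  rw [add_sub_cancel_left]
  refine (norm_add_le _ _).trans ?_
  rw [norm_div]
  have h4 : ‖g i‖ / ‖z - b i‖ + ‖H i z‖ ≤ (‖g i‖ + M i) / ‖z - b i‖ := by
    rw [add_div]
    gcongr
    rw [le_div_iff₀ hpos]
    nlinarith [norm_nonneg (H i z), hM0 i]
  refine h4.trans ?_
  gcongr
  exact Finset.single_le_sum (f := fun i => ‖g i‖ + M i)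
    (fun i _ => add_nonneg (norm_nonneg _) (hM0 i)) (Finset.mem_univ i)

/-- disjointness of small balls -/
theorem MD_disj (b : ZMod k → ℂ) (hb : Function.Injective b) :
    ∀ᶠ t in 𝓝[>] (0 : ℝ), ∀ i j : ZMod k, i ≠ j → Disjoint (ball (b i) t) (ball (b j) t) := by
  rw [eventually_all]
  intro i
  rw [eventually_all]
  intro j
  by_cases hij : i = j
  · exact Eventually.of_forall fun t h => absurd hij h
  · have hd : 0 < dist (b i) (b j) := dist_pos.mpr fun h => hij (hb h)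
    have hev : ∀ᶠ t in 𝓝[>] (0 : ℝ), t < dist (b i) (b j) / 2 :=
      nhdsWithin_le_nhds (gt_mem_nhds (by positivity))
    filter_upwards [hev] with t ht _
    exact ball_disjoint_ball (by linarith)

theorem MD_in (b : ZMod k → ℂ) {R : ℝ} (hR : ∀ i, ‖b i‖ < R) :
    ∀ᶠ t in 𝓝[>] (0 : ℝ), ∀ i : ZMod k, ball (b i) t ⊆ ball 0 R := by
  rw [eventually_all]
  intro i
  have hev : ∀ᶠ t in 𝓝[>] (0 : ℝ), t < R - ‖b i‖ :=
    nhdsWithin_le_nhds (gt_mem_nhds (by have := hR i; linarith))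
  filter_upwards [hev] with t ht
  apply ball_subset_ball'
  rw [dist_zero_right]
  linarith

theorem MD_fd0 {n : ℕ} {c : ℂ} {b : ZMod k → ℂ} (hn : 2 ≤ n) (hc : IsCyc n c b) (i : ZMod k) :
    fd n (b i) ≠ 0 := by
  unfold fd
  refine mul_ne_zero ?_ (pow_ne_zero _ (hc.ne0 i))
  exact_mod_cast (by omega : n ≠ 0)

/-- `f` maps small discs around `b i` into small discs around `b (i+1)`. -/
theorem MD_der {n : ℕ} {c : ℂ} {b : ZMod k → ℂ} (hn : 2 ≤ n) (hc : IsCyc n c b) {η : ℝ}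
    (hη : 0 < η) : ∀ᶠ t in 𝓝[>] (0 : ℝ), ∀ i : ZMod k, ∀ y : ℂ, ‖y - b i‖ < t →
      ‖y ^ n + c - b (i + 1)‖ ≤ (1 + η) * ‖fd n (b i)‖ * ‖y - b i‖ := by
  rw [eventually_all]
  intro i
  have hf0 := MD_fd0 hn hc i
  have hd : HasDerivAt (fun y : ℂ => y ^ n + c) (fd n (b i)) (b i) := by
    have := (hasDerivAt_pow n (b i)).add_const c
    exact this
  have hpos : 0 < η * ‖fd n (b i)‖ := mul_pos hη (norm_pos_iff.mpr hf0)
  have h1 := (hasDerivAt_iff_isLittleO.mp hd).bound hpos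
  obtain ⟨δ, hδ, hδ2⟩ := Metric.eventually_nhds_iff_ball.mp h1
  have hev : ∀ᶠ t in 𝓝[>] (0 : ℝ), t < δ := nhdsWithin_le_nhds (gt_mem_nhds hδ)
  filter_upwards [hev] with t ht y hy
  have h2 := hδ2 y (by rw [mem_ball, dist_eq_norm]; exact hy.trans ht)
  rw [smul_eq_mul, hc.step i] at h2
  calc ‖y ^ n + c - b (i + 1)‖
      = ‖(y ^ n + c - b (i + 1) - (y - b i) * fd n (b i)) + (y - b i) * fd n (b i)‖ := by
        congr 1; ring
    _ ≤ ‖y ^ n + c - b (i + 1) - (y - b i) * fd n (b i)‖ + ‖(y - b i) * fd n (b i)‖ :=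
        norm_add_le _ _
    _ ≤ η * ‖fd n (b i)‖ * ‖y - b i‖ + ‖y - b i‖ * ‖fd n (b i)‖ := by
        rw [norm_mul]
        gcongr
    _ = _ := by ring

end

end MPS
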